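import Pool.Agent.Q33.EX.ResB

/-!
# Geometrically abelian sections with local points everywhere

Let `c b` (`b ∈ ℚ`) be compatible families of classes in `ℚˣ / (ℚˣ) ^ n`, `n` odd: the Kummer
classes of the functions `t - b` for a section of the geometrically abelian pro-odd quotient of the
absolute Galois group of `ℚ(t)`, unramified outside the rational points.
-/

set_option autoImplicit false

namespace Pool.Agent.Results.MP_8312c9_nt.AbelianSectionsWithLocalPoints

open Pool.Agent.Q33.EX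

/-- compatible families of classes of nonzero rational numbers modulo `n`-th powers, `n` odd -/
abbrev OddClass : Type := Cls {n : ℕ | Odd n}

/-- over the field `K` the section with the Kummer classes `c` comes from the point `x`, which is
not a rational number -/
def ComesFrom (c : ℚ → OddClass) (K : Type) [Field K] (x : K) : Prop :=
  ∀ b : ℚ, x ≠ (b : K) ∧ IsClassOf K (c b) (x - (b : K))

/-- the section with the Kummer classes `c` lies in a decomposition group of a rational point of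
the projective line: of a rational number `z` (the class at `z` itself is arbitrary), or of the
point at infinity -/
def Geometric (c : ℚ → OddClass) : Prop :=
  (∃ z : ℚ, ∀ b : ℚ, b ≠ z → IsClassOf ℚ (c b) (z - b)) ∨ ∀ b b' : ℚ, c b = c b'

theorem comesFrom_real (c : ℚ → OddClass) (x : ℝ) (hx : ∀ b : ℚ, x ≠ b) : ComesFrom c ℝ x := by
  intro b
  refine ⟨hx b, fun n => ?_⟩
  obtain ⟨X, hX⟩ := QuotientGroup.mk_surjective ((c b).1 n)
  have hn : Odd (n : ℕ) := n.2
  obtain ⟨r, hr⟩ : ∃ r : ℝ, r ^ (n : ℕ) = (x - b) / ((X : ℚ) : ℝ) := by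
    rcases le_total 0 ((x - b) / ((X : ℚ) : ℝ)) with h | h
    · exact ⟨_, Real.rpow_inv_natCast_pow h hn.pos.ne'⟩
    · refine ⟨-(-((x - b) / ((X : ℚ) : ℝ))) ^ (((n : ℕ) : ℝ)⁻¹), ?_⟩
      rw [hn.neg_pow, Real.rpow_inv_natCast_pow (neg_nonneg.2 h) hn.pos.ne', neg_neg]
  have hX0 : (((X : ℚ) : ℝ)) ≠ 0 := by exact_mod_cast X.ne_zero
  refine ⟨X, r, hX.symm, ?_, ?_⟩
  · rintro rfl
    rw [zero_pow hn.pos.ne'] at hr
    have h4 : x - b ≠ 0 := sub_ne_zero.2 (hx b)
    exact div_ne_zero h4 hX0 hr.symm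
  · rw [hr]
    field_simp

theorem result (T : Finset ℕ) (y : (p : ℕ) → [Fact p.Prime] → ℚ_[p])
    (hy : ∀ (p : ℕ) [Fact p.Prime], p ∈ T → ∀ b : ℚ, y p ≠ (b : ℚ_[p])) :
    ¬ {c : ℚ → OddClass |
      (∀ (p : ℕ) [Fact p.Prime], ∃ x : ℚ_[p], (p ∈ T → x = y p) ∧ ComesFrom c ℚ_[p] x) ∧
      (∀ x : ℝ, (∀ b : ℚ, x ≠ (b : ℝ)) → ComesFrom c ℝ x) ∧ ¬ Geometric c}.Countable := by
  intro h
  apply partB T y hy
  have h1 := h.image (fun (c : ℚ → OddClass) (b : (Set.univ : Set ℚ)) => c b)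
  apply h1.mono
  rintro c ⟨hc1, hc2⟩
  refine ⟨fun b => c ⟨b, trivial⟩, ⟨?_, ?_, ?_⟩, rfl⟩
  · intro p hp
    obtain ⟨x, hx, hx2⟩ := hc1 p
    exact ⟨x, hx, fun b => hx2 ⟨b, trivial⟩⟩
  · exact fun x hx => comesFrom_real _ x hx
  · rintro (⟨z, hz⟩ | h2)
    · exact hc2 (Or.inl ⟨z, fun b hb => hz b hb⟩)
    · exact hc2 (Or.inr fun b b' => h2 b b')

end Pool.Agent.Results.MP_8312c9_nt.AbelianSectionsWithLocalPoints
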