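import Pool.Agent.Q33.RG.Mn

/-!
# Birational sections are determined by the reductions of their local points

Let `K` be a number field, `F` and `F'` function fields of curves over `K`, and `s`, `s'` sections of
`Gal(Ω/F) → Gal(B/K)` and `Gal(Ω'/F') → Gal(B/K)` that are given by points over the completions `K_v`
(by Koenigsmann's theorem all sections are of this form). Let `x ∈ F` and `x' ∈ F'` be nonconstant
functions. If, for a set of places `v` of `K` which is not of density zero, the values of `x` and `x'`
at the local points are congruent modulo `v`, then they are equal for all `v`, and either both sections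
arise from `K`-rational points, or there is an isomorphism of `Ω` and `Ω'` that maps `x` to `x'` and
`s` to `s'`. For `F = F' = K(x, y)` and two sections for which the values of `x` and the values of `y`
are congruent this says that the sections are conjugate or arise from rational points.
-/

set_option autoImplicit false

namespace Pool.Agent.Results.MP_8312c9_nt.CongruentPoints

open IsDedekindDomain Filter Topology
open Pool.Agent.TH954 (GalSection Plc)
open scoped NumberField

section defs

variable {K F Ω F' Ω' B : Type} [Field K] [Field F] [Field Ω] [Field F'] [Field Ω'] [Field B]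
  [Algebra K F] [Algebra F Ω] [Algebra K Ω] [Algebra K F'] [Algebra F' Ω'] [Algebra K Ω']
  [Algebra K B] {I : Type}

/-- The section `s` is given over the extension `L` of `K` by the place `P` of `Ω` with values in the
algebraic closure `C` of `L`: whenever `σ ∈ Gal(C/L)` and `g ∈ Gal(B/K)` are compatible on `B`, the
place turns `s g` into `σ`. -/
def Compatible (s : GalSection K F Ω B) (L : Type) {C : Type} [Field L] [Field C] [Algebra L C]
    [Algebra K C] (P : Plc K Ω C) : Prop :=
  ∀ (σ : C ≃ₐ[L] C) (g : B ≃ₐ[K] B),
    (∀ z c, P.val (s.j z) c → P.val (s.j (g z)) (σ c)) →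
    ∀ y c, P.val y c → P.val (s.s g y) (σ c)

/-- The section `s` is given over each completion of the number field `K` by a point. -/
structure LocalPoints [NumberField K] (s : GalSection K F Ω B) where
  /-- the points -/
  P : ∀ v : HeightOneSpectrum (𝓞 K), Plc K Ω (AlgebraicClosure (v.adicCompletion K))
  compatible : ∀ v, Compatible s (v.adicCompletion K) (P v)

/-- A set of places of `K` has density zero if the number of its elements of norm at most `N`, divided
by the number of primes up to `N`, tends to zero. -/
def DensityZero [NumberField K] (S : Set (HeightOneSpectrum (𝓞 K))) : Prop :=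
  Tendsto (fun N : ℕ =>
    (Nat.card {v : HeightOneSpectrum (𝓞 K) // Ideal.absNorm v.asIdeal ≤ N ∧ v ∈ S} : ℝ) /
      (Nat.primeCounting N : ℝ)) atTop (𝓝 0)

variable [NumberField K] {s : GalSection K F Ω B} {s' : GalSection K F' Ω' B}

/-- the places at which the functions `u` and `u'` have values in `K_v` that are congruent modulo the
maximal ideal -/
def congruent (P : LocalPoints s) (P' : LocalPoints s') (u : F) (u' : F') :
    Set (HeightOneSpectrum (𝓞 K)) :=
  {v | ∃ c c' : v.adicCompletion K, (P.P v).val (algebraMap F Ω u) (algebraMap _ _ c) ∧
    (P'.P v).val (algebraMap F' Ω' u') (algebraMap _ _ c') ∧ Valued.v (c - c') < 1}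

/-- the functions `u` and `u'` have the same values at all places -/
def SameValues (P : LocalPoints s) (P' : LocalPoints s') (u : F) (u' : F') : Prop :=
  ∀ (v : HeightOneSpectrum (𝓞 K)) (c : AlgebraicClosure (v.adicCompletion K)),
    (P.P v).val (algebraMap F Ω u) c ↔ (P'.P v).val (algebraMap F' Ω' u') c

/-- There is an isomorphism of `Ω` and `Ω'` that maps the functions `x i` to the functions `x' i` and
the section `s` to the section `s'`. -/
def Isomorphic (s : GalSection K F Ω B) (s' : GalSection K F' Ω' B) (x : I → F) (x' : I → F') :
    Prop :=
  ∃ e : Ω ≃ₐ[K] Ω', (∀ i, e (algebraMap F Ω (x i)) = algebraMap F' Ω' (x' i)) ∧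
    (∀ z, e (s.j z) = s'.j z) ∧ ∀ g y, e (s.s g y) = s'.s g (e y)

/-- The sections arise from `K`-rational points, at which the functions `x i` and `x' i` have the same
value `ξ i`. -/
def BothRational (s : GalSection K F Ω B) (s' : GalSection K F' Ω' B) (x : I → F) (x' : I → F') :
    Prop :=
  ∃ (ξ : I → K) (O : ValuationSubring F) (O' : ValuationSubring F'),
    s.ArisesFrom O ∧ s'.ArisesFrom O' ∧
      ∀ i, O.valuation (x i - algebraMap K F (ξ i)) < 1 ∧
        O'.valuation (x' i - algebraMap K F' (ξ i)) < 1

end defs

/-- Let `K` be a number field, `F` and `F'` function fields of curves over `K`, and `s` and `s'`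
sections of `Gal(Ω/F) → Gal(B/K)` and `Gal(Ω'/F') → Gal(B/K)` given by local points. Let
`x i ∈ F` and `x' i ∈ F'` be functions, among them nonconstant functions `x o` and `x' o`. Suppose that
for each `i` the values of `x i` and `x' i` are congruent on a set of places which is not of density
zero. Then they are equal for all places, and either there is an isomorphism of `Ω` and `Ω'` that maps
`x i` to `x' i` and `s` to `s'`, or both sections arise from `K`-rational points. -/
theorem result (K F Ω F' Ω' B : Type) [Field K] [NumberField K] [Field F] [Field Ω]
    [Field F'] [Field Ω'] [Field B]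
    [Algebra K F] [Algebra F Ω] [Algebra K Ω] [IsScalarTower K F Ω]
    [Algebra K F'] [Algebra F' Ω'] [Algebra K Ω'] [IsScalarTower K F' Ω'] [Algebra K B]
    [IsAlgClosure F Ω] [IsAlgClosure F' Ω'] [IsAlgClosure K B]
    (s : GalSection K F Ω B) (s' : GalSection K F' Ω' B)
    (P : LocalPoints s) (P' : LocalPoints s')
    {I : Type} (o : I) (x : I → F) (x' : I → F')
    (hx : Transcendental K (x o))
    (hF : Algebra.IsAlgebraic (IntermediateField.adjoin K {x o}) F)
    (hx' : Transcendental K (x' o))
    (hF' : Algebra.IsAlgebraic (IntermediateField.adjoin K {x' o}) F')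
    (congr : ∀ i, ¬ DensityZero (congruent P P' (x i) (x' i))) :
    (∀ i, SameValues P P' (x i) (x' i)) ∧
      (Isomorphic s s' x x' ∨ BothRational s s' x x') :=
  Pool.Agent.Q33.RG.main s s' P.P P.compatible P'.P P'.compatible o x x' hx hF hx' hF' congr

end Pool.Agent.Results.MP_8312c9_nt.CongruentPoints
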