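import Pool.Agent.Q33.BSec.Bir

/-!
# Birational sections over number fields whose local points have few contacts with closed points

Let `K` be a number field, `F` the function field of a curve over `K`, `x` a nonconstant function, and
`s` a section of `Gal(Ω/F) → Gal(B/K)`, where `Ω` and `B` are algebraic closures of `F` and `K`, that is
given by a point over each completion `K_v` (by Koenigsmann's theorem every section is of this form).
Let `X v ∈ K_v` be the values of `x` at these points. Let `θ i` be closed points of the line over `K`
with the equations `f_i = minpoly K (θ i)`. If there are at least `[K : ℚ]` of them, if no `X v` is one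
of them, and if the contacts `v (f_i (X v))` are bounded, or at least for some `N` and almost all `v`
zero or not divisible by `N`, then `s` is the section of a `K`-rational point.
-/

set_option autoImplicit false

namespace Pool.Agent.Results.MP_8312c9_nt.FewContacts

open Polynomial IsDedekindDomain
open NumberField (IsCMField maximalRealSubfield)
open Pool.Agent.TH954 (GalSection Plc)
open scoped NumberField

section defs

variable {K F Ω B : Type} [Field K] [Field F] [Field Ω] [Field B] [Algebra F Ω] [Algebra K Ω]
  [Algebra K B] {r : ℕ}

/-- the closed points of the line given by the `θ i` are different -/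
def Different (K : Type) [Field K] [Algebra K B] (θ : Fin r → B) : Prop :=
  ∀ i i', i ≠ i' → minpoly K (θ i) ≠ minpoly K (θ i')

/-- The number field `K` has degree at most `r`; or it contains a CM field and has degree at most
`2 r`; or it is a CM field and three of the points `θ i` are rational points `c 0`, `c 1`, `c 2` for
which `(c 1 - c 0) / (c 2 - c 0)` is not totally real. -/
def EnoughPoints (K : Type) [Field K] [NumberField K] [Algebra K B] (θ : Fin r → B) : Prop :=
  Module.finrank ℚ K ≤ r ∨
  (Module.finrank ℚ K ≤ 2 * r ∧ ∃ L : IntermediateField ℚ K, IsCMField L) ∨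
  (IsCMField K ∧ ∃ c : Fin 3 → K, (∀ k, ∃ i, θ i = algebraMap K B (c k)) ∧
    (c 1 - c 0) / (c 2 - c 0) ∉ maximalRealSubfield K)

/-- The section `s` is given over the extension `L` of `K` by the place `P` of `Ω` with values in the
algebraic closure `C` of `L`: whenever `σ ∈ Gal(C/L)` and `g ∈ Gal(B/K)` are compatible on `B`, the
place turns `s g` into `σ`. -/
def Compatible (s : GalSection K F Ω B) (L : Type) {C : Type} [Field L] [Field C] [Algebra L C]
    [Algebra K C] (P : Plc K Ω C) : Prop :=
  ∀ (σ : C ≃ₐ[L] C) (g : B ≃ₐ[K] B),
    (∀ z c, P.val (s.j z) c → P.val (s.j (g z)) (σ c)) →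
    ∀ y c, P.val y c → P.val (s.s g y) (σ c)

/-- The section `s` is given over each completion of the number field `K` by a point at which the
function `x` has a finite value `X v`, which is none of the points `θ i`. The contacts of the `X v`
with the `θ i` are few: for some positive `N` and all but finitely many `v` they are zero or not
divisible by `N` (for example bounded by `N - 1`). -/
structure LocalPoints [NumberField K] (s : GalSection K F Ω B) (x : F) (θ : Fin r → B) where
  /-- the points -/
  P : ∀ v : HeightOneSpectrum (𝓞 K), Plc K Ω (AlgebraicClosure (v.adicCompletion K))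
  compatible : ∀ v, Compatible s (v.adicCompletion K) (P v)
  /-- the values of `x` -/
  X : ∀ v : HeightOneSpectrum (𝓞 K), v.adicCompletion K
  val : ∀ v, (P v).val (algebraMap F Ω x) (algebraMap _ _ (X v))
  ne : ∀ (v : HeightOneSpectrum (𝓞 K)) (i : Fin r), aeval (X v) (minpoly K (θ i)) ≠ 0
  few : ∃ N : ℕ, 0 < N ∧ ∀ᶠ v in Filter.cofinite, ∀ (i : Fin r) (k : ℤ),
    Valued.v (aeval (X v) (minpoly K (θ i))) = WithZero.exp ((N : ℤ) * k) → k = 0

end defs

/-- Let `K` be a number field, `F` the function field of a curve over `K`, `x ∈ F` a nonconstant
function, and `θ i` different closed points of the line over `K`, as many as the degree of `K` over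
`ℚ` (or half as many if `K` contains a CM field, or as in the third case of `EnoughPoints`). Let `s` be
a section of `Gal(Ω/F) → Gal(B/K)` that is given over all completions of `K` by points which have few
contacts with the `θ i`. Then all values `X v` are one element `ξ` of `K`, and `s` arises from exactly
one `K`-rational point of the curve, at which `x` has the value `ξ`. -/
theorem result (K F Ω B : Type) [Field K] [NumberField K] [Field F] [Field Ω] [Field B]
    [Algebra K F] [Algebra F Ω] [Algebra K Ω] [Algebra K B] [IsScalarTower K F Ω]
    [IsAlgClosure F Ω] [IsAlgClosure K B]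
    (x : F) (hx : Transcendental K x)
    (hF : Algebra.IsAlgebraic (IntermediateField.adjoin K {x}) F)
    {r : ℕ} (θ : Fin r → B) (hθ : Different K θ) (enough : EnoughPoints K θ)
    (s : GalSection K F Ω B) (pts : LocalPoints s x θ) :
    ∃ ξ : K, (∀ v, pts.X v = algebraMap K (v.adicCompletion K) ξ) ∧
      ∃ O : ValuationSubring F, s.ArisesFrom O ∧ O.valuation (x - algebraMap K F ξ) < 1 ∧
        ∀ O' : ValuationSubring F, s.ArisesFrom O' → O' = O := by
  obtain ⟨P, hP, X, hX, hne, N, hN, few⟩ := pts
  exact Pool.Agent.Q33.BSec.main s x hx hF θ hθ enough P hP X hX hne N hN few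

end Pool.Agent.Results.MP_8312c9_nt.FewContacts
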