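import Pool.Agent.W623.SecF.Fg
import Pool.Agent.W623.SecF.FV
import Pool.Agent.W623.SecF.Kt
import Pool.Agent.Q52.SecV.Place

/-!
# Sections over extensions of odd degree of function fields

Let `K` be a field finitely generated over `ℚ`, `k = K(t)` the rational function field and `f ∈ K[x]`
a separable polynomial of degree `≥ 4`.  Let `a ∈ K(t)` be a rational function that has a zero or
pole of odd order at some `K`-rational point of the line (a change of the coordinate `t` moves the
point to `t = 0`) and let `n ≥ 2` be even.  We prove for the curve `C : a(t) yⁿ = f(x)` over `K(t)`: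

* if `f` has an irreducible factor of odd degree over `K`, then `C` has a point over an extension of
  `K(t)` of odd degree;
* if not, then over all finite extensions `L` of `K(t)` of odd degree the curve `C` has no point, and
  its fundamental group and its absolute Galois group (the group of the function field) have no
  section, also when any set of closed points of the curve is removed.

So for these curves the weak forms of the section conjecture and of the birational section
conjecture hold over the union of extensions of odd degree: a section over some extension of odd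
degree exists if and only if a point over some extension of odd degree exists (a theorem of the type
of Springer's theorem), and in the second case all curves over `L` that dominate `C` satisfy both
conjectures, for all `L` at once.  `MP_8312c9_nt.RamifiedTwists` of the starting files is about
sections over `K(t)` itself.

More generally, let `k` be a field of characteristic zero, `A` a discrete valuation ring of `k` whose
residue field `κ` is any finitely generated field of characteristic different from 2, let
`f ∈ A[x]` have degree `≥ 4`, unit leading coefficient and separable reduction all of whose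
irreducible factors over `κ` have even degree, and let `a ∈ k` have odd valuation.  Then for `n` even the
curve `a yⁿ = f(x)` has no points and no sections over all extensions `L` of `k` of odd degree.

The fundamental group is described through valuations.  Let `U` be a smooth geometrically connected
curve over `k` with function field `F`, let `Ω` be an algebraic closure of `F`, and let `F_U` be the
maximal extension of `F` inside `Ω` which is unramified over the closed points of `U`, that is, over
their local rings, which are valuation rings of `F`.  Then `π₁(U) = Gal(F_U/F)`, and the map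
`π₁(U) → G_k` is the restriction of automorphisms to the algebraic closure of `k` in `Ω`.  For
`U = ∅` one gets `F_U = Ω` and the sections of `Gal(Ω/F) → G_k`.

Proof.  By the identity `∑ e f = [L : k]` there is a place of `L` above `A` with odd ramification index
`e` and odd residue degree.  As `e` is odd, `a` has odd valuation there.  As the residue degree is
odd, the reduction of `f` has no root in the residue field `κ'`: the root would generate a subfield of
even degree.  The field `κ'` is finitely generated, and so its finite subsets are contained in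
valuation rings of `κ'` with finite residue field.  Now the theorem of
`MP_8312c9_nt.RamifiedTwists`, whose proof combines this place with such valuation rings, shows
that a section over `L` would give a root of the reduction of `f` in `κ'`.
-/

open Polynomial

namespace Pool.Agent.Results.MP_8312c9_nt.OddDegreeExtensions

universe u v w

section definitions

variable (k : Type u) (F : Type v) (Ω : Type w) [Field k] [Field F] [Field Ω] [Algebra k F]
  [Algebra F Ω] [Algebra k Ω]

/-- The inertia group of the valuation ring `W` of `Ω`, as a subgroup of `Gal(Ω/F)`: the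
automorphisms of `Ω` over `F` that map `W` onto itself and act as the identity on its residue
field. -/
noncomputable def inertia (W : ValuationSubring Ω) : Subgroup (Ω ≃ₐ[F] Ω) :=
  (W.inertiaSubgroup F).map (W.decompositionSubgroup F).subtype

/-- `F_U`, for a set `U` of valuation rings of `F`: the elements of `Ω` fixed by the inertia groups
of all valuation rings `W` of `Ω` with `W ∩ F ∈ U`.  If `Ω` is an algebraic closure of a field `F`
of characteristic zero, this is the maximal extension of `F` in `Ω` unramified over `U`. -/
noncomputable def unramified (U : Set (ValuationSubring F)) : IntermediateField F Ω :=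
  ⨅ W : {W : ValuationSubring Ω // W.comap (algebraMap F Ω) ∈ U},
    IntermediateField.fixedField (inertia F Ω W.1)

/-- The map `τ : M → M` acts as `σ : K → K` on the elements that the fields `K` and `M` have in
common when they are regarded as subfields of `Ω` through `i` and `j`. -/
def ActsAs {K M Ω : Type*} [Field K] [Field M] [Field Ω] (i : K →+* Ω) (j : M →+* Ω) (σ : K → K)
    (τ : M → M) : Prop :=
  ∀ c z, j z = i c → j (τ z) = i (σ c)

/-- Let `k ⊆ K ⊆ Ω` and `F ⊆ M ⊆ Ω` be fields.  A splitting of `Gal(M/F) → Gal(K/k)`: a continuous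
homomorphism `s` from `Gal(K/k)` to `Gal(M/F)` such that `s(σ)` acts as `σ` on the elements of
`K ∩ M`. -/
structure Splitting (K M : Type*) [Field K] [Field M] [Algebra k K] [Algebra F M] [Algebra K Ω]
    [Algebra M Ω] where
  /-- the homomorphism `Gal(K/k) → Gal(M/F)` -/
  toHom : (K ≃ₐ[k] K) →* (M ≃ₐ[F] M)
  cont : Continuous toHom
  compat : ∀ σ : K ≃ₐ[k] K, ActsAs (algebraMap K Ω) (algebraMap M Ω) σ (toHom σ)

/-- The sections of `π₁(U) = Gal(F_U/F) → G_k`: the continuous homomorphisms `s` from
`G_k = Gal(k̄/k)` to `Gal(F_U/F)`, where `k̄` is the algebraic closure of `k` in `Ω`, such that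
`s(σ)` acts as `σ` on the elements of `k̄`. -/
def GaloisSection (U : Set (ValuationSubring F)) : Type w :=
  Splitting k F Ω (algebraicClosure k Ω) (unramified F Ω U)

end definitions

/-- The smooth projective curve `a yⁿ = f(x)`, where `n` divides the degree of `f`, has no point
over `k`: neither in the affine part nor at infinity. -/
def NoPoint {k : Type u} [Field k] (n : ℕ) (a : k) (f : k[X]) : Prop :=
  (¬ ∃ x y : k, a * y ^ n = f.eval x) ∧ ¬ ∃ r : k, a * r ^ n = f.leadingCoeff

/-- Let `F` be any field over `k` that contains a point `(x, y)` of the curve `a yⁿ = f(x)`, for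
instance the function field of the curve, and let `Ω` be an algebraic closure of `F`.  Then for
every set `U` of valuation rings of `F` over `k` there is no section of `π₁(U) → G_k`.  If `F` is the
function field of the curve, such `U` are given by the smooth projective curve and by all its open
subcurves. -/
def NoSection {k : Type u} [Field k] (n : ℕ) (a : k) (f : k[X]) : Prop :=
  ∀ (F : Type v) (Ω : Type w) [Field F] [Field Ω] [Algebra k F] [Algebra F Ω] [Algebra k Ω]
    [IsScalarTower k F Ω] [IsAlgClosure F Ω] (x y : F) (U : Set (ValuationSubring F)),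
    algebraMap k F a * y ^ n = aeval x f → (∀ O ∈ U, ∀ c : k, algebraMap k F c ∈ O) →
      IsEmpty (GaloisSection k F Ω U)

/-- The field `κ` is finitely generated (over its prime field). -/
def FGField (κ : Type) [Field κ] : Prop := ∃ s : Finset κ, Subfield.closure (s : Set κ) = ⊤

/-- `a` has odd valuation: it is the product of a unit and an odd power of a uniformiser of `A`. -/
def OddValuation {k : Type u} [Field k] (A : ValuationSubring k) (a : k) : Prop :=
  ∃ (ϖ t : A) (m : ℤ), Irreducible ϖ ∧ IsUnit t ∧ Odd m ∧ a = (t : k) * (ϖ : k) ^ m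

/-- `a = t^m p(t)/q(t)` with `m` odd and `p(0), q(0) ≠ 0`: a rational function in `t` of odd order at
the point `t = 0`. -/
def OddOrder (K : Type) {k : Type u} [Field K] [Field k] [Algebra K k] (t a : k) : Prop :=
  ∃ (m : ℤ) (p q : K[X]), Odd m ∧ p.eval 0 ≠ 0 ∧ q.eval 0 ≠ 0 ∧
    a = t ^ m * (aeval t p / aeval t q)

/-- all irreducible factors of `f` have even degree -/
def EvenFactors {κ : Type} [Field κ] (f : κ[X]) : Prop :=
  ∀ g : κ[X], Irreducible g → g ∣ f → Even g.natDegree

lemma EvenFactors.even {κ : Type} [Field κ] : ∀ (n : ℕ) (f : κ[X]), f.natDegree = n → f ≠ 0 →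
    EvenFactors f → Even f.natDegree := by
  intro n
  induction n using Nat.strong_induction_on with
  | _ n ih =>
    intro f hn hf h
    by_cases h0 : f.natDegree = 0
    · rw [h0]
      exact Even.zero
    · have hnu : ¬ IsUnit f := by
        intro hu
        exact h0 (natDegree_eq_zero_of_isUnit hu)
      obtain ⟨g, hg, q, rfl⟩ := WfDvdMonoid.exists_irreducible_factor hnu hf
      have hq : q ≠ 0 := right_ne_zero_of_mul hf
      have hg0 : g ≠ 0 := left_ne_zero_of_mul hf
      have hdeg := natDegree_mul hg0 hq
      have hpos := hg.natDegree_pos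
      have h1 := h g hg (Dvd.intro _ rfl)
      have h2 : Even q.natDegree := by
        refine ih q.natDegree (by omega) q rfl hq ?_
        intro r hr hrq
        exact h r hr (hrq.mul_left g)
      rw [hdeg]
      exact h1.add h2

lemma exists_val {κ : Type} [Field κ] (h : Pool.Agent.W623.SecF.FV κ) :
    ∀ S : Finset κ, ∃ O : ValuationSubring κ, Finite (IsLocalRing.ResidueField O) ∧
      (2 : κ)⁻¹ ∈ O ∧ ∀ s ∈ S, s ∈ O := by
  classical
  intro S
  obtain ⟨O, hO, h1⟩ := h (insert (2 : κ)⁻¹ S)
  exact ⟨O, hO, h1 _ (Finset.mem_insert_self _ _), fun s hs => h1 s (Finset.mem_insert_of_mem hs)⟩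

/-- (1), the general theorem -/
theorem general (k : Type) [Field k] [CharZero k] (A : ValuationSubring k)
    [IsDiscreteValuationRing A] (κ : Type) [Field κ] (ρ : A →+* κ) (hρ : Function.Surjective ρ)
    (hκ : FGField κ) (h2 : (2 : κ) ≠ 0) (f : A[X]) (hlc : IsUnit f.leadingCoeff)
    (hs : (f.map ρ).Separable) (h4 : 4 ≤ f.natDegree) (hev : EvenFactors (f.map ρ)) (a : k)
    (ha : OddValuation A a) (n : ℕ) (hn : 0 < n) (hne : Even n) (L : Type) [Field L] [Algebra k L]
    [FiniteDimensional k L] (hL : Odd (Module.finrank k L)) :
    NoPoint n (algebraMap k L a) ((f.map (algebraMap A k)).map (algebraMap k L)) ∧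
      NoSection.{0, v, w} n (algebraMap k L a)
        ((f.map (algebraMap A k)).map (algebraMap k L)) := by
  obtain ⟨ϖ, t, m, hϖ, ht, hm, ha⟩ := ha
  obtain ⟨l, rfl⟩ := hne
  have hczL : CharZero L := charZero_of_injective_algebraMap (algebraMap k L).injective
  have hρlc : ρ f.leadingCoeff ≠ 0 := (hlc.map ρ).ne_zero
  have hdegρ : (f.map ρ).natDegree = f.natDegree := natDegree_map_of_leadingCoeff_ne_zero _ hρlc
  have hevf : Even f.natDegree := by
    rw [← hdegρ]
    exact EvenFactors.even _ _ rfl hs.ne_zero hev
  obtain ⟨P, he, hf⟩ := Pool.Agent.Q52.SecV.exists_odd_place k A ϖ hϖ κ ρ hρ L hL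
  obtain ⟨B, hB, κ', fld, alg, fin, ρ', sur, i, hi, hρi, π, hπ, e, u, hu⟩ := P
  dsimp only at he hf
  have hFV : Pool.Agent.W623.SecF.FV κ := by
    obtain ⟨s, hs⟩ := hκ
    exact Pool.Agent.W623.SecF.FV.of_fg s hs
  have hFV' : Pool.Agent.W623.SecF.FV κ' := hFV.alg
  have hval := exists_val hFV'
  have h2' : (2 : κ') ≠ 0 := by
    intro h
    apply h2
    apply (algebraMap κ κ').injective
    rw [map_ofNat, h, map_zero]
  have hinj : Function.Injective i := by
    intro x y hxy
    have h1 := congrArg (fun z : B => (z : L)) hxy
    simp only [hi] at h1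
    exact Subtype.ext ((algebraMap k L).injective h1)
  set g : B[X] := f.map i with hg
  have hgρ : g.map ρ' = (f.map ρ).map (algebraMap κ κ') := by
    rw [hg, Polynomial.map_map, Polynomial.map_map]
    congr 1
    ext x
    exact hρi x
  have hgL : g.map (algebraMap B L) = (f.map (algebraMap A k)).map (algebraMap k L) := by
    rw [hg, Polynomial.map_map, Polynomial.map_map]
    congr 1
    ext x
    exact hi x
  have hdeg : g.natDegree = f.natDegree := natDegree_map_eq_of_injective hinj f
  have hlcg : IsUnit g.leadingCoeff := by
    rw [hg, leadingCoeff_map_of_injective hinj]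
    exact hlc.map i
  have hsg : (g.map ρ').Separable := by
    rw [hgρ]
    exact hs.map
  have hno : ∀ b : B, g.eval b ∉ IsLocalRing.maximalIdeal B := by
    intro b hb
    have hker : ρ' (g.eval b) = 0 := by
      have hmax : (RingHom.ker ρ').IsMaximal := RingHom.ker_isMaximal_of_surjective ρ' sur
      rw [← IsLocalRing.eq_maximalIdeal hmax] at hb
      exact hb
    have hr : aeval (ρ' b) (f.map ρ) = 0 := by
      rw [aeval_def, ← eval_map, ← hgρ, eval_map, eval₂_at_apply, hker]
    have hint : IsIntegral κ (ρ' b) := Algebra.IsIntegral.isIntegral _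
    have h3 := hev (minpoly κ (ρ' b)) (minpoly.irreducible hint) (minpoly.dvd κ _ hr)
    have h4 := minpoly.degree_dvd hint
    exact (Nat.not_even_iff_odd.2 hf) (even_iff_two_dvd.2 ((even_iff_two_dvd.1 h3).trans h4))
  have ha' : algebraMap k L a = algebraMap B L (i t * ((u ^ m : Bˣ) : B)) *
      algebraMap B L π ^ ((e : ℤ) * m) := by
    have h5 : algebraMap k L (ϖ : k) = algebraMap B L (u : B) * algebraMap B L π ^ e := by
      rw [← hi, hu]
      rfl
    have h6 : algebraMap B L ((u ^ m : Bˣ) : B) = algebraMap B L (u : B) ^ m := by
      have h7 : ((Units.map (algebraMap B L : B →* L) (u ^ m) : Lˣ) : L) =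
          ((Units.map (algebraMap B L : B →* L) u : Lˣ) : L) ^ m := by
        rw [map_zpow, Units.val_zpow_eq_zpow_val]
      exact h7
    rw [ha, map_mul, map_zpow₀, h5, mul_zpow, map_mul, h6, ← hi, zpow_mul, zpow_natCast, mul_assoc]
    rfl
  have hm' : Odd ((e : ℤ) * m) := (Int.odd_mul.2 ⟨by exact_mod_cast he, hm⟩)
  have ht' : IsUnit (i t * ((u ^ m : Bˣ) : B)) := (ht.map i).mul (Units.isUnit _)
  have hlcL : ((f.map (algebraMap A k)).map (algebraMap k L)).leadingCoeff =
      algebraMap B L g.leadingCoeff := by
    rw [← hgL]
    exact leadingCoeff_map_of_injective (IsFractionRing.injective B L) g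
  refine ⟨⟨?_, ?_⟩, ?_⟩
  · rintro ⟨x, y, hxy⟩
    refine Pool.Agent.W623.SecC.no_affine_point π hπ g hlcg (by rwa [hdeg]) hno _ _ ht' _ hm' ha' x
      (y ^ l) ?_
    rw [hgL, ← hxy, ← pow_mul, mul_two]
  · rintro ⟨r, hr⟩
    refine Pool.Agent.W623.SecC.no_infinite_point π hπ g hlcg _ _ ht' _ hm' ha' (r ^ l) ?_
    rw [← hlcL, ← hr, ← pow_mul, mul_two]
  · intro F Ω _ _ _ _ _ _ _ x y U hxy hU
    have hcl : IsAlgClosed Ω := IsAlgClosure.isAlgClosed F
    have halg : Algebra.IsAlgebraic F Ω := IsAlgClosure.isAlgebraic
    refine ⟨fun s => ?_⟩
    obtain ⟨b, hb⟩ := Pool.Agent.W623.SecC.fg_root B ρ' sur g hlcg hsg π hπ _ _ ht' _ hm' ha'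
      (by rwa [hdeg]) h2' hval (by rwa [hdeg]) U hU ⟨s.toHom, s.cont, s.compat⟩ x (y ^ l)
      (by rw [hgL, ← hxy, ← pow_mul, mul_two])
    exact hno b hb

/-- roots in extensions of odd degree -/
lemma exists_root {K k : Type} [Field K] [Field k] [Algebra K k] (f : K[X]) (hf : f ≠ 0)
    (h : ¬ EvenFactors f) : ∃ (L : Type) (_ : Field L) (_ : Algebra k L),
      Odd (Module.finrank k L) ∧ ∃ x : L, ((f.map (algebraMap K k)).map (algebraMap k L)).eval x =
        0 := by
  unfold EvenFactors at h
  push Not at h
  obtain ⟨g, hg, hgf, hodd⟩ := h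
  rw [Nat.not_even_iff_odd] at hodd
  have hg0 : g.map (algebraMap K k) ≠ 0 := (Polynomial.map_ne_zero_iff
    (algebraMap K k).injective).2 hg.ne_zero
  have h1 : ¬ EvenFactors (g.map (algebraMap K k)) := by
    intro hev
    have h2 := EvenFactors.even _ _ rfl hg0 hev
    rw [natDegree_map] at h2
    exact (Nat.not_even_iff_odd.2 hodd) h2
  unfold EvenFactors at h1
  push Not at h1
  obtain ⟨h, hh, hhg, hodd'⟩ := h1
  rw [Nat.not_even_iff_odd] at hodd'
  have hfact : Fact (Irreducible h) := ⟨hh⟩
  refine ⟨AdjoinRoot h, inferInstance, inferInstance, ?_, AdjoinRoot.root h, ?_⟩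
  · rw [(AdjoinRoot.powerBasis hh.ne_zero).finrank, AdjoinRoot.powerBasis_dim]
    exact hodd'
  · have hdvd : h ∣ f.map (algebraMap K k) := hhg.trans (Polynomial.map_dvd _ hgf)
    obtain ⟨q, hq⟩ := hdvd
    rw [hq, Polynomial.map_mul, eval_mul]
    have h3 : (h.map (algebraMap k (AdjoinRoot h))).eval (AdjoinRoot.root h) = 0 := by
      rw [eval_map]
      exact AdjoinRoot.eval₂_root h
    rw [h3, zero_mul]

/-- (2), rational function fields -/
theorem rational (K : Type) [Field K] [CharZero K] (hK : FGField K) (k : Type) [Field k]
    [Algebra K k] (t : k) (ht : Transcendental K t)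
    (htop : IntermediateField.adjoin K {t} = (⊤ : IntermediateField K k)) (f : K[X])
    (hs : f.Separable) (h4 : 4 ≤ f.natDegree) (hev : EvenFactors f) (a : k)
    (ha : OddOrder K t a) (n : ℕ) (hn : 0 < n)
    (hne : Even n) (L : Type) [Field L] [Algebra k L] [FiniteDimensional k L]
    (hL : Odd (Module.finrank k L)) :
    NoPoint n (algebraMap k L a) ((f.map (algebraMap K k)).map (algebraMap k L)) ∧
      NoSection.{0, v, w} n (algebraMap k L a)
        ((f.map (algebraMap K k)).map (algebraMap k L)) := by
  have hcz : CharZero k := charZero_of_injective_algebraMap (algebraMap K k).injective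
  obtain ⟨A, hA, ρ, i, hρ, hρi, hi, hX, hunit⟩ := Pool.Agent.W623.SecF.exists_dvr t ht htop
  obtain ⟨m, p, q, hm, hp, hq, ha⟩ := ha
  have hf0 : f ≠ 0 := hs.ne_zero
  set g : A[X] := f.map (i.comp C) with hg
  have hρC : (ρ.comp (i.comp C)) = RingHom.id K := by
    ext c
    change ρ (i (C c)) = c
    rw [hρi, eval_C]
  have hgρ : g.map ρ = f := by
    rw [hg, Polynomial.map_map, hρC, Polynomial.map_id]
  have hgk : g.map (algebraMap A k) = f.map (algebraMap K k) := by
    rw [hg, Polynomial.map_map]
    congr 1
    ext c
    change ((i (C c) : A) : k) = _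
    rw [hi, aeval_C]
  have hinj : Function.Injective (i.comp C) := (i.comp C).injective
  have hdeg : g.natDegree = f.natDegree := natDegree_map_eq_of_injective hinj f
  have hlc : IsUnit g.leadingCoeff := by
    rw [hg, leadingCoeff_map_of_injective hinj]
    exact (isUnit_iff_ne_zero.2 (leadingCoeff_ne_zero.2 hf0)).map (i.comp C)
  have hq' := hunit q hq
  obtain ⟨v, hv⟩ := hq'
  have ha' : OddValuation A a := by
    refine ⟨i X, i p * ((v⁻¹ : Aˣ) : A), m, hX, (hunit p hp).mul (Units.isUnit _), hm, ?_⟩
    have h1 : ((i X : A) : k) = t := by rw [hi, aeval_X]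
    have h2 : (((v⁻¹ : Aˣ) : A) : k) = (aeval t q)⁻¹ := by
      have h3 : ((v : A) : k) * (((v⁻¹ : Aˣ) : A) : k) = 1 := by
        have h4 := v.mul_inv
        exact_mod_cast congrArg (fun z : A => (z : k)) h4
      rw [hv, hi] at h3
      exact eq_inv_of_mul_eq_one_right h3
    have h5 : ((i p * ((v⁻¹ : Aˣ) : A) : A) : k) = aeval t p / aeval t q := by
      change ((i p : A) : k) * (((v⁻¹ : Aˣ) : A) : k) = _
      rw [hi, h2, div_eq_mul_inv]
    rw [h5, h1, ha, mul_comm]
  have h6 := general.{v, w} k A K ρ hρ hK two_ne_zero g hlc (by rwa [hgρ]) (by rwa [hdeg])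
    (by rwa [hgρ]) a ha' n hn hne L hL
  rwa [hgk] at h6

/-- (1) Let `k` be a field of characteristic zero, `A` a discrete valuation ring of `k` with residue
field `κ`, a finitely generated field of characteristic different from 2.  Let `f ∈ A[x]` have
degree `≥ 4` and unit leading coefficient, and let its reduction be separable with all irreducible
factors over `κ` of even degree.  Let `a ∈ k` have odd valuation at `A` and let `n ≥ 2` be even.  Then
for every extension `L` of `k` of odd degree the curve `a yⁿ = f(x)` has no point over `L` and no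
section over `L`, also birationally.  (2) Let `K` be a finitely generated field of characteristic
zero, `k = K(t)` with `t` transcendental over `K`, and let `f ∈ K[x]` be separable of degree `≥ 4`.
Let `a ∈ k` be a rational function in `t` that has odd order at `t = 0` and let `n ≥ 2` be even.  If
`f` has an irreducible factor of odd degree over `K`, then there is an extension `L` of `k` of odd
degree with a root `x` of `f`, and `(x, 0)` is a point of the curve `a yⁿ = f(x)` over `L`.  If not,
then for every extension `L` of `k` of odd degree the curve has no point over `L` and no section over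
`L`, also birationally. -/
theorem result :
    (∀ (k : Type) [Field k] [CharZero k] (A : ValuationSubring k) [IsDiscreteValuationRing A]
      (κ : Type) [Field κ] (ρ : A →+* κ), Function.Surjective ρ → FGField κ → (2 : κ) ≠ 0 →
      ∀ f : A[X], IsUnit f.leadingCoeff → (f.map ρ).Separable → 4 ≤ f.natDegree →
      EvenFactors (f.map ρ) → ∀ a : k, OddValuation A a → ∀ n : ℕ, 0 < n → Even n →
      ∀ (L : Type) [Field L] [Algebra k L] [FiniteDimensional k L], Odd (Module.finrank k L) →
      NoPoint n (algebraMap k L a) ((f.map (algebraMap A k)).map (algebraMap k L)) ∧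
        NoSection.{0, v, w} n (algebraMap k L a)
          ((f.map (algebraMap A k)).map (algebraMap k L))) ∧
    (∀ (K : Type) [Field K] [CharZero K], FGField K → ∀ (k : Type) [Field k] [Algebra K k]
      (t : k), Transcendental K t →
      IntermediateField.adjoin K {t} = (⊤ : IntermediateField K k) →
      ∀ f : K[X], f.Separable → 4 ≤ f.natDegree → ∀ a : k, OddOrder K t a →
      ∀ n : ℕ, 0 < n → Even n →
      (¬ EvenFactors f → ∃ (L : Type) (_ : Field L) (_ : Algebra k L),
        Odd (Module.finrank k L) ∧ ∃ x : L,
          ((f.map (algebraMap K k)).map (algebraMap k L)).eval x = 0) ∧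
      (EvenFactors f →
      ∀ (L : Type) [Field L] [Algebra k L] [FiniteDimensional k L], Odd (Module.finrank k L) →
      NoPoint n (algebraMap k L a) ((f.map (algebraMap K k)).map (algebraMap k L)) ∧
        NoSection.{0, v, w} n (algebraMap k L a)
          ((f.map (algebraMap K k)).map (algebraMap k L)))) :=
  ⟨fun k _ _ A _ κ _ ρ hρ hκ h2 f hlc hs h4 hev a ha n hn hne L _ _ _ hL =>
    general k A κ ρ hρ hκ h2 f hlc hs h4 hev a ha n hn hne L hL,
  fun K _ _ hK k _ _ t ht htop f hs h4 a ha n hn hne =>
    ⟨fun h => exists_root f hs.ne_zero h, fun hev L _ _ _ hL =>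
      rational K hK k t ht htop f hs h4 hev a ha n hn hne L hL⟩⟩

end Pool.Agent.Results.MP_8312c9_nt.OddDegreeExtensions
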